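import Pool.Agent.P.MP_36361b_lc.Main

/-! The structure forced below a Magidor cardinal that is not a limit of weakly inaccessible
cardinals. -/

universe u

namespace Pool.Agent.Results.MP_36361b_lc.ChangShift

open Cardinal Order Pool.Agent.P.MP_36361b_lc

theorem result (l : Cardinal.{u}) (hl : Magidor l) (hn : ¬LimWI l) :
    ∃ a < l, ∀ k ≤ l, ℵ₀ < k → k.IsRegular → a ≤ k ∨ Arrow l k →
      ∃ r m, k = succ r ∧ r < m ∧ m < l ∧ Chang m r ∧ ¬Square m := by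
  obtain ⟨a, a1, a2, a3⟩ := hl.glue
  refine ⟨a, a1, fun k h1 h2 h3 h4 => ?_⟩
  replace h1 : k < l := h1.lt_of_ne fun e => hl.not_regular (e ▸ h3)
  replace h4 : Arrow l k := h4.elim (a3.mono a2) id
  obtain ⟨r, rfl⟩ : ∃ r, k = succ r := by_contra fun h =>
    no_wi hl hn h1 (wi_of h3 h2 fun r e => h ⟨r, e⟩) h4
  have h0 : ℵ₀ ≤ r := lt_succ_iff.1 h2
  obtain ⟨m, m1, m2, m3⟩ := chang hl hn h0 ((lt_succ r).trans h1) h4
  exact ⟨r, m, rfl, m1, m2, m3, m3.not_square h0 m1⟩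

end Pool.Agent.Results.MP_36361b_lc.ChangShift
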